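import Pool.Agent.MP_cce4c9_lc.H87.SpecR

/-!
Semantics of the second system.
-/

set_option autoImplicit false

open Polynomial Finset

namespace Pool.Agent.MP_cce4c9_lc.H91

open H87 H87.Cv

theorem forall_getD {α : Type} (L : List α) (z : α) (P : α → Prop) :
    (∀ i < L.length, P (L.getD i z)) ↔ ∀ g ∈ L, P g := by
  refine ⟨fun h g hg => ?_, fun h i hi => ?_⟩
  · obtain ⟨i, hi, rfl⟩ := List.getElem_of_mem hg
    exact List.getD_eq_getElem L z hi ▸ h i hi
  · rw [List.getD_eq_getElem L z hi]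
    exact h _ (List.getElem_mem hi)

section
variable {S : Type} [CommRing S] {A B : Ds} {φ ψ : El → S}

theorem hm_mkHat (h : Hm A φ) (s : El) (Ys : List El) (d m N : ℕ) (c : Tab) :
    φ (mkHat A s Ys d m N c) = ∑ J ∈ range (d ^ m), ∑ e ∈ range (N + 1 - ds d m J),
      φ (ent c e J) * (φ s ^ e * ∏ i ∈ range m, φ (Ys.getD i []) ^ dig d J i) := by
  simp only [mkHat, h.sumL_range, h.mul, h.pw, h.prodL_range]

theorem hm_delH (h : Hm A φ) (s : El) (Ys fl : List El) (m : ℕ) :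
    φ (delH A s Ys fl fl.length m) = ∏ i ∈ range m, ∑ j ∈ range fl.length,
      ((j + 1 : ℕ) : S) * (if j + 1 < fl.length then φ (fl.getD (j + 1) []) else 1) *
        φ s ^ (fl.length - 1 - j) * φ (Ys.getD i []) ^ j := by
  simp only [delH, h.sumL_range, h.mul, h.pw, h.prodL_range]
  refine prod_congr rfl fun i _ => sum_congr rfl fun j hj => ?_
  have hj' := mem_range.1 hj
  rw [derL, KTow.getD_range_map (by simpa [fullL] using hj'), h.mul, h.cst, fullL]
  split_ifs with k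
  · rw [List.getD_append _ _ _ _ k]
  · rw [List.getD_append_right _ _ _ _ (by omega), show j + 1 - fl.length = 0 by omega,
      List.getD_cons_zero, h.cst, Nat.cast_one]

theorem delH_congr (h : Hm A φ) (h' : Hm B ψ) {s : El} {Ys fl : List El} (m : ℕ) (e : φ s = ψ s)
    (eY : ∀ i, φ (Ys.getD i []) = ψ (Ys.getD i [])) (ef : ∀ a ∈ fl, φ a = ψ a) :
    φ (delH A s Ys fl fl.length m) = ψ (delH B s Ys fl fl.length m) := by
  rw [hm_delH h, hm_delH h']
  refine prod_congr rfl fun i _ => sum_congr rfl fun j _ => ?_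
  rw [e, eY]
  split_ifs with k
  · rw [List.getD_eq_getElem _ _ k, ef _ (List.getElem_mem k)]
  · rfl

end

theorem idx_lt {d m e J : ℕ} (hJ : J < d ^ m) (he : e ≤ w0 d m) : J + d ^ m * e < nV0 d m := by
  have := Nat.mul_le_mul_left (d ^ m) he
  rw [nV0, mul_add, mul_one]
  omega

theorem ent_tab0 {d m e J : ℕ} (b : List El) (hJ : J < d ^ m) :
    ent (tab0 d m b) e J = if e ≤ w0 d m then b.getD (J + d ^ m * e) [] else [] := by
  split_ifs with he
  · exact ent_mat _ (by omega) hJ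
  · rw [ent, List.getD_eq_default (tab0 d m b) _ (by rw [tab0, length_mat]; omega)]
    rfl

/-- The generic equation. -/
noncomputable def GP {R : Type} [CommRing R] (d m l : ℕ) (s δ : R) (Y : ℕ → R) :
    MvPolynomial (Fin (nV0 d m)) R :=
  (∑ J ∈ range (d ^ m), ∑ e ∈ range (2 * w0 d m + 1 - ds d m J),
    (if e ≤ w0 d m then ex MvPolynomial.X (J + d ^ m * e) else 0) *
      MvPolynomial.C (s ^ e * ∏ i ∈ range m, Y i ^ dig d J i)) ^ l - MvPolynomial.C (δ ^ l)

theorem deg_GP {R : Type} [CommRing R] (d m l : ℕ) (s δ : R) (Y : ℕ → R) :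
    (GP d m l s δ Y).totalDegree < l + 1 := by
  refine Nat.lt_succ_of_le ((MvPolynomial.totalDegree_sub _ _).trans (max_le ?_
    ((MvPolynomial.totalDegree_C _).trans_le l.zero_le)))
  refine (MvPolynomial.totalDegree_pow _ _).trans ?_
  refine (Nat.mul_le_mul_left l (show _ ≤ 1 from ?_)).trans (mul_one l).le
  refine MvPolynomial.totalDegree_finsetSum_le fun J _ =>
    MvPolynomial.totalDegree_finsetSum_le fun e _ => (MvPolynomial.totalDegree_mul _ _).trans ?_
  rw [MvPolynomial.totalDegree_C, add_zero, ex]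
  split_ifs
  · exact (MvPolynomial.isHomogeneous_X R _).totalDegree_le
  · simp
  · simp

theorem eval_GP {R S : Type} [CommRing R] [CommRing S] (P : R →+* S) (d m l : ℕ) (s δ : R)
    (Y : ℕ → R) (y : Fin (nV0 d m) → S) :
    MvPolynomial.eval₂ P y (GP d m l s δ Y) =
      (∑ J ∈ range (d ^ m), ∑ e ∈ range (2 * w0 d m + 1 - ds d m J),
        (if e ≤ w0 d m then ex y (J + d ^ m * e) else 0) *
          (P s ^ e * ∏ i ∈ range m, P (Y i) ^ dig d J i)) ^ l - P δ ^ l := by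
  change MvPolynomial.eval₂Hom P y _ = _
  rw [GP, map_sub, map_pow, map_sum, MvPolynomial.eval₂Hom_C, map_pow]
  congr 2
  refine sum_congr rfl fun J _ => ?_
  rw [map_sum]
  refine sum_congr rfl fun e _ => ?_
  rw [map_mul, MvPolynomial.eval₂Hom_C, map_mul, map_pow, map_prod, ex, ex]
  simp only [map_pow]
  split_ifs <;> simp

theorem sys0_ (hH : StmtHALG) : StmtSYS0 := by
  intro F k _ _ D π ι fl d m l f C a hI hA
  obtain ⟨n, en⟩ : ∃ n, 2 * w0 d m * l + 1 = n := ⟨_, rfl⟩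
  obtain ⟨H⟩ := hH k d m f C D F π ι fl n hA hI (by omega)
  have hr : List.replicate (l + 1) ([] : El) ≠ [] := by simp
  obtain ⟨R', _, ⟨T⟩⟩ := exists_tow H.πH hr (nV0 d m)
  obtain ⟨G, eG⟩ : ∃ G, GP d m l (H.πH.val (rt1 D n)) (H.πH.val (delH (hatT D fl d m n).1
    (rt1 D n) (hatT D fl d m n).2 fl d m)) (fun i => H.πH.val ((hatT D fl d m n).2.getD i [])) =
      G := ⟨_, rfl⟩
  have hv : T.π'.val (eq0 (hatT D fl d m n) (rt1 D n) fl d m l) = MvPolynomial.eval₂ T.inc
      (fun i : Fin (nV0 d m) => T.π'.val ((tower (hatT D fl d m n).1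
        (List.replicate (l + 1) []) (nV0 d m)).2.getD i [])) G := by
    rw [← eG, eval_GP, eq0, T.π'.hm.sub, T.π'.hm.pw, T.π'.hm.pw, hm_mkHat T.π'.hm]
    congr 2
    · refine sum_congr rfl fun J hJ => sum_congr rfl fun e _ => ?_
      rw [ent_tab0 _ (mem_range.1 hJ), T.val_inc _ H.lens]
      simp only [T.val_inc _ (H.lenY _)]
      split_ifs with he
      · rw [ex, dif_pos (idx_lt (mem_range.1 hJ) he)]
      · rw [T.π'.hm.nil]
    · have := delH_congr T.π'.hm (H.πH.hm.comp T.inc) m (T.val_inc _ H.lens)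
        (fun i => T.val_inc _ (H.lenY i)) fun a ha => T.val_inc a ((hI.2.1 a ha).trans H.dm)
      rwa [hI.1] at this
  choose y hy hy' using fun J' => H.coef (chunk (hatT D fl d m n).1
    (eq0 (hatT D fl d m n) (rt1 D n) fl d m l) J')
  obtain ⟨q, eq⟩ : ∃ q : ℕ → ℕ → k, (fun e J => ∑ J' ∈ range ((l + 1) ^ nV0 d m),
    ι (π.val (coefH D n (chunk (hatT D fl d m n).1 (eq0 (hatT D fl d m n) (rt1 D n) fl d m l) J')
      e J)) * ∏ i, a i ^ exps (l + 1) (nV0 d m) J' i) = q := ⟨_, rfl⟩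
  have left : (∀ i < (sys0 D fl d m l).length, MvPolynomial.eval a
      (toMv (fun x => ι (π.val x)) (l + 1) (nV0 d m) ((sys0 D fl d m l).getD i [])) = 0) ↔
        ∀ J < d ^ m, ∀ e < n, q e J = 0 := by
    rw [forall_getD (sys0 D fl d m l) [] fun g => MvPolynomial.eval a
      (toMv (fun x => ι (π.val x)) (l + 1) (nV0 d m) g) = 0, sys0, en]
    simp only [List.mem_flatMap, List.mem_map, List.mem_range, forall_exists_index, and_imp]
    have key : ∀ e J, MvPolynomial.eval a (toMv (fun x => ι (π.val x)) (l + 1) (nV0 d m)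
        ((List.range ((l + 1) ^ nV0 d m)).map fun J' => coefH D n (chunk (hatT D fl d m n).1
          (eq0 (hatT D fl d m n) (rt1 D n) fl d m l) J') e J)) = q e J := fun e J => by
      rw [← eq, toMv, map_sum]
      refine sum_congr rfl fun J' hJ' => ?_
      rw [KTow.getD_range_map (mem_range.1 hJ'), MvPolynomial.eval_monomial,
        Finsupp.prod_fintype _ _ fun i => pow_zero _]
    refine ⟨fun h J hJ e he => key e J ▸ h _ J hJ e he rfl, ?_⟩
    rintro h _ J hJ e he rfl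
    exact (key e J).trans (h J hJ e he)
  obtain ⟨z, ez⟩ : ∃ z : C.AI, ∑ J' ∈ range ((l + 1) ^ nV0 d m),
    algebraMap k C.AI (∏ i, a i ^ exps (l + 1) (nV0 d m) J' i) * y J' = z := ⟨_, rfl⟩
  have hz : (z : C.Q) = C.rec' n q := by
    rw [← ez, ← eq]
    change C.AI.val _ = _
    simp only [map_sum, map_mul, AlgHom.commutes, Subalgebra.coe_val, hy, rec', mul_sum, sum_mul]
    rw [sum_comm]
    refine sum_congr rfl fun J _ => ?_
    rw [sum_comm]
    exact sum_congr rfl fun e _ => sum_congr rfl fun J' _ => by ring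
  obtain ⟨c, ec⟩ : ∃ c : ℕ → ℕ → k,
    (fun e J => if e ≤ w0 d m then ex a (J + d ^ m * e) else 0) = c := ⟨_, rfl⟩
  have m1 : C.hat (2 * w0 d m) c ∈ C.FN (2 * w0 d m) := (hA.memF _ _).2 ⟨c, rfl⟩
  have m2 : C.dlh ∈ C.FN (2 * w0 d m) := hA.monoF _ _ (by omega) hA.dlF
  have ms : C.s ∈ C.AI := Algebra.subset_adjoin (Set.mem_insert _ _)
  have mY : ∀ i < m, C.Y i ∈ C.AI := fun i hi =>
    Algebra.subset_adjoin (Set.mem_insert_of_mem _ ⟨i, hi, rfl⟩)
  obtain ⟨Y, hY⟩ : ∃ Y : ℕ → C.AI, ∀ i < m, (Y i : C.Q) = C.Y i :=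
    ⟨fun i => if hi : i < m then ⟨_, mY i hi⟩ else 0, fun i hi => by simp only [dif_pos hi]⟩
  obtain ⟨u, hu⟩ : ∃ u : C.AI, (u : C.Q) = C.hat (2 * w0 d m) c :=
    ⟨⟨_, (hA.memI _).2 ⟨_, m1⟩⟩, rfl⟩
  obtain ⟨v, hv'⟩ : ∃ v : C.AI, (v : C.Q) = C.dlh := ⟨⟨_, (hA.memI _).2 ⟨_, m2⟩⟩, rfl⟩
  have eu : u = ∑ J ∈ range (d ^ m), ∑ e ∈ range (2 * w0 d m + 1 - ds d m J),
      algebraMap k C.AI (c e J) * ((⟨_, ms⟩ : C.AI) ^ e * ∏ i ∈ range m, Y i ^ dig d J i) := by
    refine Subtype.ext (hu.trans ?_)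
    change _ = C.AI.val _
    simp only [map_sum, map_mul, map_pow, map_prod, AlgHom.commutes, Subalgebra.coe_val, hat, mono]
    refine sum_congr rfl fun J _ => sum_congr rfl fun e _ => ?_
    rw [prod_congr rfl fun i hi => by rw [← hY i (mem_range.1 hi)]]
  have pz : H.pr z = H.pr (u ^ l - v ^ l) := by
    have e1 : H.pr z = MvPolynomial.eval₂ H.Ψ (fun i => H.pr (algebraMap k C.AI (a i))) G := by
      change _ = MvPolynomial.eval₂Hom _ _ _
      rw [eq_sum_exps G (eG ▸ deg_GP _ _ _ _ _ _), ← ez, map_sum, map_sum]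
      refine sum_congr rfl fun J' hJ' => ?_
      rw [MvPolynomial.eval₂Hom_monomial, Finsupp.prod_fintype _ _ fun i => pow_zero _,
        ← T.trunc G hv (mem_range.1 hJ'), hy', map_mul, mul_comm]
      simp only [map_prod, map_pow]
    rw [e1, ← eG, eval_GP, map_sub, map_pow, map_pow,
      H.del _ _ v (H.πH.hm.comp H.Ψ) (fun _ _ => rfl) hv', H.hs ⟨_, ms⟩ rfl, eu]
    congr 2
    simp only [map_sum, map_mul, map_pow, map_prod]
    refine sum_congr rfl fun J _ => sum_congr rfl fun e _ => ?_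
    rw [prod_congr rfl fun i hi => by rw [H.hY i (mem_range.1 hi) (Y i) (hY i (mem_range.1 hi))],
      ← ec]
    simp only [ex]
    split_ifs <;> simp
  rw [left, ec]
  constructor
  · intro h
    have z0 : z = 0 := Subtype.ext (hz.trans (sum_eq_zero fun J hJ => sum_eq_zero fun e he => by
      rw [h J (mem_range.1 hJ) e (mem_range.1 he), map_zero, zero_mul]))
    rw [z0, map_zero] at pz
    have := (H.ker _).1 pz.symm
    rw [Subalgebra.coe_sub, Subalgebra.coe_pow, Subalgebra.coe_pow, hu, hv'] at this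
    refine sub_eq_zero.1 (hA.truncF (l * (2 * w0 d m)) n _ ?_
      (sub_mem (hA.powF _ _ _ m1) (hA.powF _ _ _ m2)) this)
    rw [← en, mul_comm]
    exact Nat.lt_succ_self _
  · intro h
    have e0 : u ^ l - v ^ l = 0 := Subtype.ext (by
      rw [Subalgebra.coe_sub, Subalgebra.coe_pow, Subalgebra.coe_pow, hu, hv', h, sub_self]
      rfl)
    rw [e0, map_zero] at pz
    exact hA.trunc n q (hz ▸ (H.ker _).1 pz)

end Pool.Agent.MP_cce4c9_lc.H91
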